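import Mathlib

set_option autoImplicit false
set_option linter.unusedSectionVars false

/-!
# Degree filtration on functions of `(Z/r)^E` by characters
-/

namespace Pool.Agent.H51.RG

open Finset

section Deg

variable {E : Type} [Fintype E] [DecidableEq E] {r : ℕ} [NeZero r] {F : Type} [Field F]

/-- pairing -/
def pr (s y : E → ZMod r) : ZMod r := ∑ e, s e * y e

theorem pr_add (s t y : E → ZMod r) : pr (s + t) y = pr s y + pr t y := by
  unfold pr
  rw [← sum_add_distrib]
  exact sum_congr rfl fun e _ => by rw [Pi.add_apply, add_mul]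

theorem pr_add_right (s y z : E → ZMod r) : pr s (y + z) = pr s y + pr s z := by
  unfold pr
  rw [← sum_add_distrib]
  exact sum_congr rfl fun e _ => by rw [Pi.add_apply, mul_add]

theorem pr_zero (y : E → ZMod r) : pr (0 : E → ZMod r) y = 0 := by
  simp [pr]

theorem pr_neg (s y : E → ZMod r) : pr (-s) y = - pr s y := by
  unfold pr
  rw [← sum_neg_distrib]
  exact sum_congr rfl fun e _ => by rw [Pi.neg_apply, neg_mul]

theorem pr_sub (s t y : E → ZMod r) : pr (s - t) y = pr s y - pr t y := by
  rw [sub_eq_add_neg, pr_add, pr_neg, sub_eq_add_neg]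

theorem pr_single (e : E) (j : ZMod r) (y : E → ZMod r) : pr (Pi.single e j) y = j * y e := by
  unfold pr
  rw [Finset.sum_eq_single e]
  · rw [Pi.single_eq_same]
  · intro b _ hb
    rw [Pi.single_eq_of_ne hb, zero_mul]
  · intro h
    exact absurd (mem_univ e) h

/-- the character of `s` -/
def chi (ψ : AddChar (ZMod r) F) (s : E → ZMod r) (y : E → ZMod r) : F := ψ (pr s y)

theorem chi_zero (ψ : AddChar (ZMod r) F) : chi ψ (0 : E → ZMod r) = 1 := by
  funext y
  unfold chi
  rw [pr_zero, AddChar.map_zero_eq_one]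
  rfl

theorem chi_mul (ψ : AddChar (ZMod r) F) (s t : E → ZMod r) : chi ψ s * chi ψ t = chi ψ (s + t) := by
  funext y
  rw [Pi.mul_apply]
  unfold chi
  rw [pr_add, AddChar.map_add_eq_mul]

/-- the support -/
def supp (s : E → ZMod r) : Finset E := univ.filter fun e => s e ≠ 0

theorem mem_supp (s : E → ZMod r) (e : E) : e ∈ supp s ↔ s e ≠ 0 := by
  unfold supp
  simp

theorem supp_zero : supp (0 : E → ZMod r) = ∅ := by
  ext e
  rw [mem_supp]
  simp

theorem supp_eq_empty {s : E → ZMod r} (h : supp s = ∅) : s = 0 := by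
  funext e
  by_contra h1
  have h2 : e ∈ supp s := (mem_supp s e).2 h1
  rw [h] at h2
  exact absurd h2 (by simp)

theorem supp_add (s t : E → ZMod r) : supp (s + t) ⊆ supp s ∪ supp t := by
  intro e he
  rw [mem_supp] at he
  rw [mem_union, mem_supp, mem_supp]
  by_contra h
  rw [not_or, not_not, not_not] at h
  exact he (by rw [Pi.add_apply, h.1, h.2, add_zero])

theorem card_supp_add (s t : E → ZMod r) : (supp (s + t)).card ≤ (supp s).card + (supp t).card :=
  (card_le_card (supp_add s t)).trans (card_union_le _ _)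

theorem supp_neg (s : E → ZMod r) : supp (-s) = supp s := by
  ext e
  rw [mem_supp, mem_supp, Pi.neg_apply, neg_ne_zero]

theorem card_supp_sub (s t : E → ZMod r) : (supp (s - t)).card ≤ (supp s).card + (supp t).card := by
  rw [sub_eq_add_neg]
  have h := card_supp_add s (-t)
  rwa [supp_neg] at h

theorem supp_single (e : E) (j : ZMod r) : supp (Pi.single e j : E → ZMod r) ⊆ {e} := by
  intro i hi
  rw [mem_supp] at hi
  rw [mem_singleton]
  by_contra h
  apply hi
  rw [Pi.single_eq_of_ne h]

theorem card_supp_single (e : E) (j : ZMod r) : (supp (Pi.single e j : E → ZMod r)).card ≤ 1 :=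
  (card_le_card (supp_single e j)).trans (by simp)

/-- functions of degree at most `D` -/
def Dg (E : Type) [Fintype E] {r : ℕ} {F : Type} [Field F] (ψ : AddChar (ZMod r) F) (D : ℕ) :
    Submodule F ((E → ZMod r) → F) :=
  Submodule.span F {f | ∃ s : E → ZMod r, (supp s).card ≤ D ∧ f = chi ψ s}

variable (ψ : AddChar (ZMod r) F)

theorem chi_mem {s : E → ZMod r} {D : ℕ} (h : (supp s).card ≤ D) : chi ψ s ∈ Dg E ψ D :=
  Submodule.subset_span ⟨s, h, rfl⟩

theorem dg_mono {a b : ℕ} (h : a ≤ b) : Dg E ψ a ≤ Dg E ψ b := by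
  apply Submodule.span_mono
  rintro f ⟨S, hS, rfl⟩
  exact ⟨S, hS.trans h, rfl⟩

theorem one_mem (D : ℕ) : (1 : (E → ZMod r) → F) ∈ Dg E ψ D := by
  rw [← chi_zero (E := E) ψ]
  exact chi_mem ψ (by rw [supp_zero]; simp)

theorem dg_mul {a b : ℕ} {f g : (E → ZMod r) → F} (hf : f ∈ Dg E ψ a) (hg : g ∈ Dg E ψ b) :
    f * g ∈ Dg E ψ (a + b) := by
  have h1 : f * g ∈ Dg E ψ a * Dg E ψ b := Submodule.mul_mem_mul hf hg
  unfold Dg at h1
  rw [Submodule.span_mul_span] at h1
  revert h1
  apply SetLike.le_def.1
  rw [Submodule.span_le]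
  rintro _ ⟨_, ⟨S, hS, rfl⟩, _, ⟨T, hT, rfl⟩, rfl⟩
  show chi ψ S * chi ψ T ∈ _
  rw [chi_mul]
  apply chi_mem
  have := card_supp_add S T
  omega

theorem dg_const (c : F) (D : ℕ) : (fun _ => c : (E → ZMod r) → F) ∈ Dg E ψ D := by
  have h : (fun _ => c : (E → ZMod r) → F) = c • (1 : (E → ZMod r) → F) := by
    funext y
    simp
  rw [h]
  exact Submodule.smul_mem _ _ (one_mem ψ D)

/-- the indicator of one value in characters -/
theorem ind_val (hψ : ψ.IsPrimitive) (a b : ZMod r) :
    ∑ i : ZMod r, ψ (i * (a - b)) = if a = b then (r : F) else 0 := by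
  rw [AddChar.sum_mulShift (a - b) hψ, ZMod.card]
  by_cases h : a = b
  · rw [if_pos (sub_eq_zero.2 h), if_pos h]
  · rw [if_neg (fun h1 => h (sub_eq_zero.1 h1)), if_neg h]
    simp

/-- a function of the coordinates in `S` -/
theorem dg_junta (hψ : ψ.IsPrimitive) (h2 : (r : F) ≠ 0) (S : Finset E) (f : (E → ZMod r) → F)
    (hf : ∀ y y', (∀ e ∈ S, y e = y' e) → f y = f y') : f ∈ Dg E ψ S.card := by
  induction S using Finset.induction_on generalizing f with
  | empty =>
    have : f = fun _ => f (fun _ => 0) := by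
      funext y
      exact hf _ _ (by simp)
    rw [this]
    exact dg_const ψ _ _
  | insert e S he ih =>
    have hd : ∀ b : ZMod r, (fun y => f (Function.update y e b)) ∈ Dg E ψ S.card := by
      intro b
      apply ih
      intro y y' h
      apply hf
      intro i hi
      rcases mem_insert.1 hi with rfl | hi
      · simp
      · have : i ≠ e := fun h => he (h ▸ hi)
        simp [Function.update_of_ne this, h i hi]
    have h1 : f = ∑ j : ZMod r, ((r : F)⁻¹ • ∑ i : ZMod r, ψ (-(i * j)) • chi ψ (Pi.single e i)) *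
        (fun y => f (Function.update y e j)) := by
      funext y
      rw [Finset.sum_apply, Finset.sum_eq_single (y e)]
      · rw [Pi.mul_apply, Pi.smul_apply, Finset.sum_apply]
        have h3 : ∑ i : ZMod r, (ψ (-(i * y e)) • chi ψ (Pi.single e i)) y = (r : F) := by
          rw [← (show (if y e = y e then (r : F) else 0) = r from if_pos rfl),
            ← ind_val ψ hψ (y e) (y e)]
          apply sum_congr rfl
          intro i _
          rw [Pi.smul_apply, smul_eq_mul]
          unfold chi
          rw [pr_single, ← AddChar.map_add_eq_mul]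
          congr 1
          ring
        rw [h3, smul_eq_mul, inv_mul_cancel₀ h2, one_mul, Function.update_eq_self]
      · intro j _ hj
        rw [Pi.mul_apply, Pi.smul_apply, Finset.sum_apply]
        have h3 : ∑ i : ZMod r, (ψ (-(i * j)) • chi ψ (Pi.single e i)) y = 0 := by
          rw [← (show (if y e = j then (r : F) else 0) = 0 from if_neg (Ne.symm hj)),
            ← ind_val ψ hψ (y e) j]
          apply sum_congr rfl
          intro i _
          rw [Pi.smul_apply, smul_eq_mul]
          unfold chi
          rw [pr_single, ← AddChar.map_add_eq_mul]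
          congr 1
          ring
        rw [h3, smul_zero, zero_mul]
      · intro h
        exact absurd (mem_univ _) h
    rw [h1, card_insert_of_notMem he]
    apply Submodule.sum_mem
    intro j _
    rw [add_comm]
    apply dg_mul ψ _ (hd j)
    apply Submodule.smul_mem
    apply Submodule.sum_mem
    intro i _
    apply Submodule.smul_mem
    exact chi_mem ψ (card_supp_single e i)

theorem addchar_sum (f : E → ZMod r) (S : Finset E) : ψ (∑ e ∈ S, f e) = ∏ e ∈ S, ψ (f e) := by
  induction S using Finset.induction_on with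
  | empty => simp
  | insert a S ha ih => rw [sum_insert ha, prod_insert ha, AddChar.map_add_eq_mul, ih]

/-- orthogonality -/
theorem sum_chi (hψ : ψ.IsPrimitive) (s : E → ZMod r) :
    ∑ y : E → ZMod r, chi ψ s y = if s = 0 then (r : F) ^ Fintype.card E else 0 := by
  have h1 : ∑ y : E → ZMod r, chi ψ s y = ∏ e : E, ∑ x : ZMod r, ψ (x * s e) := by
    rw [Finset.prod_univ_sum, Fintype.piFinset_univ]
    apply sum_congr rfl
    intro y _
    unfold chi pr
    rw [addchar_sum]
    exact prod_congr rfl fun e _ => by rw [mul_comm]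
  have h3 : ∀ e, ∑ x : ZMod r, ψ (x * s e) = if s e = 0 then (r : F) else 0 := by
    intro e
    rw [AddChar.sum_mulShift (s e) hψ, ZMod.card]
    split_ifs <;> simp
  rw [h1, prod_congr rfl fun e _ => h3 e]
  by_cases h : s = 0
  · rw [if_pos h, h]
    simp
  · rw [if_neg h]
    have h4 : ∃ e, s e ≠ 0 := by
      by_contra h5
      push Not at h5
      exact h (funext h5)
    obtain ⟨e, he⟩ := h4
    exact prod_eq_zero (mem_univ e) (if_neg he)

/-- Fourier coefficient (times a constant) -/
noncomputable def cf (s : E → ZMod r) : ((E → ZMod r) → F) →ₗ[F] F :=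
  ∑ y : E → ZMod r, chi ψ (-s) y • LinearMap.proj y

theorem cf_chi (hψ : ψ.IsPrimitive) (s t : E → ZMod r) :
    cf ψ s (chi ψ t) = if s = t then (r : F) ^ Fintype.card E else 0 := by
  have h1 : cf ψ s (chi ψ t) = ∑ y : E → ZMod r, chi ψ (t - s) y := by
    unfold cf
    rw [LinearMap.sum_apply]
    apply sum_congr rfl
    intro y _
    rw [LinearMap.smul_apply, LinearMap.proj_apply, smul_eq_mul, sub_eq_add_neg, add_comm t,
      ← chi_mul, Pi.mul_apply]
  rw [h1, sum_chi ψ hψ]
  by_cases h : s = t
  · rw [if_pos h, if_pos (sub_eq_zero.2 h.symm)]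
  · rw [if_neg h, if_neg fun h1 => h (sub_eq_zero.1 h1).symm]

end Deg

end Pool.Agent.H51.RG
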