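import Pool.Agent.H93.RG.Flow
import Pool.Agent.H93.FG.Zal
import Pool.Agent.H51.RG.Chr

set_option autoImplicit false
set_option linter.unusedSectionVars false

/-!
# The coboundary on the complete graph, modulo `r`
-/

namespace Pool.Agent.H51.RG

open Finset
open Pool.Agent.H93.RG (Ed flow ch Vio atv)

section Bd

variable {q r : ℕ} [NeZero r]

/-- the coboundary -/
def dd (u : Fin q → ZMod r) : Ed q → ZMod r := fun e => u e.1.inf - u e.1.sup

theorem dd_add (u w : Fin q → ZMod r) : dd (u + w) = dd u + dd w := by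
  funext e
  simp only [dd, Pi.add_apply]
  ring

theorem dd_zero : dd (0 : Fin q → ZMod r) = 0 := by
  funext e
  simp [dd]

theorem dd_neg (u : Fin q → ZMod r) : dd (-u) = - dd u := by
  funext e
  simp only [dd, Pi.neg_apply]
  ring

theorem dd_sub (u w : Fin q → ZMod r) : dd (u - w) = dd u - dd w := by
  rw [sub_eq_add_neg, dd_add, dd_neg, sub_eq_add_neg]

theorem mem_supp_dd {u : Fin q → ZMod r} {a b : Fin q} (h : ¬ (s(a, b)).IsDiag) :
    (⟨s(a, b), h⟩ : Ed q) ∈ supp (dd u) ↔ u a ≠ u b := by
  rw [mem_supp]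
  unfold dd
  rw [Sym2.inf_mk, Sym2.sup_mk, sub_ne_zero]
  rcases le_total a b with hab | hab
  · rw [inf_eq_left.2 hab, sup_eq_right.2 hab]
  · rw [inf_eq_right.2 hab, sup_eq_left.2 hab]
    exact ne_comm

theorem card_dd (u : Fin q → ZMod r) :
    (supp u).card * (q - (supp u).card) ≤ (supp (dd u)).card := by
  refine (Pool.Agent.H93.FG.card_bd (supp u)).trans (card_le_card ?_)
  rintro ⟨e, he⟩ h
  induction e using Sym2.ind with
  | _ a b =>
    rw [Pool.Agent.H93.FG.mem_bd, mem_supp, mem_supp] at h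
    rw [mem_supp_dd]
    intro h1
    rw [h1] at h
    exact h Iff.rfl

theorem card_dd_single (a : Fin q) (j : ZMod r) :
    (supp (dd (Pi.single a j : Fin q → ZMod r))).card ≤ q - 1 := by
  refine (card_le_card ?_).trans (Pool.Agent.H93.FG.card_bd_le a)
  rintro ⟨e, he⟩ h
  induction e using Sym2.ind with
  | _ x y =>
    rw [mem_supp_dd] at h
    rw [Pool.Agent.H93.FG.mem_bd]
    simp only [mem_singleton]
    intro h1
    apply h
    by_cases hx : x = a
    · rw [hx, h1.1 hx]
    · have hy : y ≠ a := fun h2 => hx (h1.2 h2)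
      rw [Pi.single_eq_of_ne hx, Pi.single_eq_of_ne hy]

theorem flow_self (y : Ed q → ZMod r) (a : Fin q) : flow y a a = 0 := by
  unfold flow
  rw [dif_pos (by simp)]

theorem mk_inf_sup (e : Sym2 (Fin q)) : s(e.inf, e.sup) = e := by
  induction e using Sym2.ind with
  | _ a b =>
    rw [Sym2.inf_mk, Sym2.sup_mk]
    rcases le_total a b with h | h
    · rw [inf_eq_left.2 h, sup_eq_right.2 h]
    · rw [inf_eq_right.2 h, sup_eq_left.2 h, Sym2.eq_swap]

theorem pr_dd (u : Fin q → ZMod r) (y : Ed q → ZMod r) :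
    pr (dd u) y = ∑ a, u a * ∑ b, flow y a b := by
  classical
  set g : Fin q × Fin q → ZMod r := fun p => u p.1 * flow y p.1 p.2 with hg
  have h1 : ∑ a, u a * ∑ b, flow y a b = ∑ p : Fin q × Fin q, g p := by
    rw [Fintype.sum_prod_type]
    apply sum_congr rfl
    intro a _
    rw [mul_sum]
  have h2 : ∑ p : Fin q × Fin q, g p =
      ∑ p ∈ univ.filter (fun p : Fin q × Fin q => p.1 < p.2), (g p + g p.swap) := by
    have h3 : ∀ p : Fin q × Fin q, g p = (if p.1 < p.2 then g p else 0) +
        (if p.2 < p.1 then g p else 0) := by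
      intro p
      rcases lt_trichotomy p.1 p.2 with h | h | h
      · rw [if_pos h, if_neg (not_lt.2 h.le), add_zero]
      · rw [if_neg (by rw [h]; exact lt_irrefl _), if_neg (by rw [h]; exact lt_irrefl _), add_zero]
        rw [hg]
        simp only
        rw [h, flow_self, mul_zero]
      · rw [if_neg (not_lt.2 h.le), if_pos h, zero_add]
    rw [sum_congr rfl fun p _ => h3 p, sum_add_distrib, sum_add_distrib, sum_filter, sum_filter]
    congr 1
    exact Fintype.sum_equiv (Equiv.prodComm (Fin q) (Fin q)) _ _ fun p => rfl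
  rw [h1, h2]
  unfold pr
  refine sum_bij (fun e _ => (e.1.inf, e.1.sup)) ?_ ?_ ?_ ?_
  · rintro ⟨e, he⟩ _
    induction e using Sym2.ind with
    | _ a b =>
      rw [mem_filter]
      refine ⟨mem_univ _, ?_⟩
      simp only [Sym2.inf_mk, Sym2.sup_mk]
      exact inf_lt_sup.2 (by simpa using he)
  · rintro e _ e' _ h
    rw [Prod.mk.injEq] at h
    apply Subtype.ext
    rw [← mk_inf_sup e.1, ← mk_inf_sup e'.1, h.1, h.2]
  · rintro ⟨a, b⟩ hp
    rw [mem_filter] at hp
    have hab : a < b := hp.2
    refine ⟨⟨s(a, b), by simpa using hab.ne⟩, mem_univ _, ?_⟩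
    simp only [Sym2.inf_mk, Sym2.sup_mk]
    rw [inf_eq_left.2 hab.le, sup_eq_right.2 hab.le]
  · rintro ⟨e, he⟩ _
    have hlt : e.inf < e.sup := by
      induction e using Sym2.ind with
      | _ a b => exact inf_lt_sup.2 (by simpa using he)
    have he2 : s(e.inf, e.sup) = e := mk_inf_sup e
    have he3 : s(e.sup, e.inf) = e := by rw [Sym2.eq_swap, he2]
    have hd : ¬ (s(e.inf, e.sup)).IsDiag := by rw [he2]; exact he
    have hd' : ¬ (s(e.sup, e.inf)).IsDiag := by rw [he3]; exact he
    have hy1 : flow y e.inf e.sup = y ⟨e, he⟩ := by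
      unfold flow
      rw [dif_neg hd, if_pos hlt]
      congr 1
      exact Subtype.ext he2
    have hy2 : flow y e.sup e.inf = - y ⟨e, he⟩ := by
      unfold flow
      rw [dif_neg hd', if_neg (not_lt.2 hlt.le)]
      congr 2
      exact Subtype.ext he3
    rw [hg]
    simp only [Prod.fst_swap, Prod.snd_swap]
    rw [hy1, hy2]
    unfold dd
    ring

theorem dd_eq_zero {u : Fin q → ZMod r} (h : dd u = 0) (hu : (supp u).card < q) : u = 0 := by
  by_contra h1
  have h2 : 0 < (supp u).card :=
    card_pos.2 (nonempty_iff_ne_empty.2 fun h3 => h1 (supp_eq_empty h3))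
  have h3 := card_dd u
  rw [h, supp_zero, card_empty] at h3
  have h4 : 0 < (supp u).card * (q - (supp u).card) := Nat.mul_pos h2 (by omega)
  omega

theorem dd_inj {u w : Fin q → ZMod r} (hu : 2 * (supp u).card < q) (hw : 2 * (supp w).card < q)
    (h : dd u = dd w) : u = w := by
  have h1 : u - w = 0 := by
    apply dd_eq_zero
    · rw [dd_sub, h, sub_self]
    · have := card_supp_sub u w
      omega
  exact sub_eq_zero.1 h1

theorem small_third {k : ℕ} (hk : 9 * k < q * q) {u : Fin q → ZMod r} (hu : 2 * (supp u).card < q)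
    (h : (supp (dd u)).card ≤ 2 * k) : 3 * (supp u).card < q :=
  Pool.Agent.H93.FG.num_third hk hu ((card_dd u).trans h)

theorem card_of_add {k : ℕ} {S T : Ed q → ZMod r} {u : Fin q → ZMod r} (hS : (supp S).card ≤ k)
    (hT : (supp T).card ≤ k) (h : T = S + dd u) : (supp (dd u)).card ≤ 2 * k := by
  have h2 : dd u = T - S := by rw [h, add_sub_cancel_left]
  rw [h2]
  have := card_supp_sub T S
  omega

/-- transitivity -/
theorem shift_two {k : ℕ} (hk : 9 * k < q * q) {S T R : Ed q → ZMod r} {u w : Fin q → ZMod r}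
    (hS : (supp S).card ≤ k) (hT : (supp T).card ≤ k) (hR : (supp R).card ≤ k)
    (hu : 2 * (supp u).card < q) (hw : 2 * (supp w).card < q) (h1 : T = S + dd u)
    (h2 : R = T + dd w) : 2 * (supp (u + w)).card < q ∧ R = S + dd (u + w) := by
  have h3 := small_third hk hu (card_of_add hS hT h1)
  have h4 := small_third hk hw (card_of_add hT hR h2)
  have h5 : R = S + dd (u + w) := by
    rw [h2, h1, dd_add, add_assoc]
  have h6 := card_supp_add u w
  have h7 := Pool.Agent.H93.FG.num_two hk (a := (supp (u + w)).card) (by omega)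
    ((card_dd _).trans (card_of_add hS hR h5))
  exact ⟨by omega, h5⟩

end Bd

end Pool.Agent.H51.RG
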