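import Pool.Agent.H51.RG.Tse

set_option autoImplicit false
set_option linter.unusedSectionVars false

/-!
# Restriction of scalars, and `alg_exists`
-/

namespace Pool.Agent.H51.RG

open Finset
open Pool.Agent.H93.RG (Ed flow ch Vio atv)
open Pool.Agent.H67.FG (ind Alg)

section Restrict

variable (k F Y : Type) [Field k] [Field F] [Algebra k F]

/-- functions with values in the small field -/
def inc : (Y → k) →ₗ[k] (Y → F) where
  toFun f y := algebraMap k F (f y)
  map_add' f g := by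
    funext y
    simp
  map_smul' c f := by
    funext y
    simp [Algebra.smul_def]

variable {k F Y}

theorem inc_apply (f : Y → k) (y : Y) : inc k F Y f y = algebraMap k F (f y) := rfl

theorem inc_one : inc k F Y 1 = 1 := by
  funext y
  rw [inc_apply]
  simp

theorem inc_mul (f g : Y → k) : inc k F Y (f * g) = inc k F Y f * inc k F Y g := by
  funext y
  rw [inc_apply, Pi.mul_apply, Pi.mul_apply, map_mul]
  rfl

theorem inc_ind (P : Y → Prop) : inc k F Y (ind P) = ind P := by
  funext y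
  rw [inc_apply]
  unfold ind
  split_ifs <;> simp

variable (k)

/-- restriction of scalars -/
def restr (𝓑 : Alg F Y) : Alg k Y where
  Deg n := ((𝓑.Deg n).restrictScalars k).comap (inc k F Y)
  Z := (𝓑.Z.restrictScalars k).comap (inc k F Y)
  K := 𝓑.K
  one n := by
    show inc k F Y 1 ∈ 𝓑.Deg n
    rw [inc_one]
    exact 𝓑.one n
  mono {a b} h := by
    intro f hf
    exact 𝓑.mono h hf
  mul {a b f g} hf hg := by
    show inc k F Y (f * g) ∈ 𝓑.Deg (a + b)
    rw [inc_mul]
    exact 𝓑.mul hf hg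
  zmul {a b f g} hab hf hg hz := by
    show inc k F Y (f * g) ∈ 𝓑.Z
    rw [inc_mul]
    exact 𝓑.zmul hab hf hg hz
  ne := by
    intro h
    have h1 : inc k F Y 1 ∈ 𝓑.Z := h
    rw [inc_one] at h1
    exact 𝓑.ne h1

end Restrict

/-- the algebra: local functions have low degree, violations are in `Z` -/
theorem alg_exists (p : ℕ) [Fact p.Prime] (r : ℕ) (hr : 2 ≤ r) (hpr : ¬ p ∣ r) (q K c : ℕ) (hq : 3 < q)
    (hK : 9 * K < q ^ 2) (hqK : q - 1 ≤ K) : ∃ 𝓐 : Alg (ZMod p) (Ed q → ZMod r), 𝓐.K = K ∧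
      (∀ (S : Finset (Ed q)) (f : (Ed q → ZMod r) → ZMod p), (∀ y y', (∀ e ∈ S, y e = y' e) → f y = f y') →
        f ∈ 𝓐.Deg S.card) ∧ ∀ a : Fin q, ind (fun y => Vio c a y) ∈ 𝓐.Z := by
  have : NeZero r := ⟨by omega⟩
  have hrp : ((r : ℕ) : ZMod p) ≠ 0 := fun h => hpr ((ZMod.natCast_eq_zero_iff r p).1 h)
  have : NeZero ((r : ℕ) : ZMod p) := ⟨hrp⟩
  let F := CyclotomicField r (ZMod p)
  have hζ : IsPrimitiveRoot (IsCyclotomicExtension.zeta r (ZMod p) F) r :=
    IsCyclotomicExtension.zeta_spec r (ZMod p) F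
  have hψ := AddChar.zmodChar_primitive_of_primitive_root r hζ
  set ψ := AddChar.zmodChar r ((IsPrimitiveRoot.iff_def _ r).mp hζ).left with hψd
  have h2 : ((r : ℕ) : F) ≠ 0 := by
    intro h
    apply hrp
    apply (algebraMap (ZMod p) F).injective
    rw [map_natCast, map_zero]
    exact h
  refine ⟨restr (ZMod p) (algF ψ (fun a : Fin q => ch r c a) hψ h2 K hK), rfl, ?_, ?_⟩
  · intro S f hf
    show inc (ZMod p) F _ f ∈ Dg (Ed q) ψ S.card
    apply dg_junta ψ hψ h2
    intro y y' h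
    rw [inc_apply, inc_apply, hf y y' h]
  · intro a
    show inc (ZMod p) F _ (ind (fun y => Vio c a y)) ∈ Zk ψ (fun a : Fin q => ch r c a) K
    rw [inc_ind]
    exact wrong_mem ψ (fun a : Fin q => ch r c a) hψ h2 (by omega) hqK a

end Pool.Agent.H51.RG
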