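import Pool.Agent.H51.RG.Bd

set_option autoImplicit false
set_option linter.unusedSectionVars false

/-!
# The Tseitin ideal modulo `r` of the complete graph, over a field with a primitive `r`-th root of unity
-/

namespace Pool.Agent.H51.RG

open Finset
open Pool.Agent.H93.RG (Ed flow ch Vio atv)

section Tse

variable {q r : ℕ} [NeZero r] {F : Type} [Field F] (ψ : AddChar (ZMod r) F) (h : Fin q → ZMod r)

/-- the value of a coboundary -/
def sg (u : Fin q → ZMod r) : F := ψ (- pr u h)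

theorem sg_add (u w : Fin q → ZMod r) : sg ψ h (u + w) = sg ψ h u * sg ψ h w := by
  unfold sg
  rw [pr_add, neg_add, AddChar.map_add_eq_mul]

theorem sg_zero : sg ψ h 0 = 1 := by
  unfold sg
  rw [pr_zero, neg_zero, AddChar.map_zero_eq_one]

/-- the ideal up to degree `k` -/
def Zk (k : ℕ) : Submodule F ((Ed q → ZMod r) → F) :=
  Submodule.span F {f | ∃ (S : Ed q → ZMod r) (u : Fin q → ZMod r), (supp S).card ≤ k ∧
    (supp (S + dd u)).card ≤ k ∧ 2 * (supp u).card < q ∧
    f = chi ψ S - sg ψ h u • chi ψ (S + dd u)}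

theorem zk_mono {a b : ℕ} (hab : a ≤ b) : Zk ψ h a ≤ Zk ψ h b := by
  apply Submodule.span_mono
  rintro f ⟨S, U, h1, h2, h3, rfl⟩
  exact ⟨S, U, h1.trans hab, h2.trans hab, h3, rfl⟩

theorem zk_mul {a b : ℕ} {f g : (Ed q → ZMod r) → F} (hf : f ∈ Zk ψ h a)
    (hg : g ∈ Dg (Ed q) ψ b) : f * g ∈ Zk ψ h (a + b) := by
  have h1 : f * g ∈ Zk ψ h a * Dg (Ed q) ψ b := Submodule.mul_mem_mul hf hg
  unfold Zk Dg at h1
  rw [Submodule.span_mul_span] at h1
  revert h1
  apply SetLike.le_def.1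
  rw [Submodule.span_le]
  rintro _ ⟨_, ⟨S, U, h1, h2, h3, rfl⟩, _, ⟨T, hT, rfl⟩, rfl⟩
  show (chi ψ S - sg ψ h U • chi ψ (S + dd U)) * chi ψ T ∈ _
  rw [sub_mul, smul_mul_assoc, chi_mul, chi_mul]
  have h4 : S + dd U + T = S + T + dd U := by ring
  have hc : ∀ A : Ed q → ZMod r, (supp A).card ≤ a → (supp (A + T)).card ≤ a + b := fun A hA =>
    (card_supp_add A T).trans (by omega)
  apply Submodule.subset_span
  refine ⟨S + T, U, hc S h1, ?_, h3, by rw [h4]⟩
  rw [← h4]
  exact hc _ h2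

open scoped Classical in
/-- the value of a coboundary -/
noncomputable def lam (S : Ed q → ZMod r) : F :=
  if h' : ∃ u : Fin q → ZMod r, 2 * (supp u).card < q ∧ dd u = S then sg ψ h (Classical.choose h')
  else 0

theorem lam_dd {u : Fin q → ZMod r} (hu : 2 * (supp u).card < q) : lam ψ h (dd u) = sg ψ h u := by
  unfold lam
  have h' : ∃ w : Fin q → ZMod r, 2 * (supp w).card < q ∧ dd w = dd u := ⟨u, hu, rfl⟩
  rw [dif_pos h']
  have h1 := Classical.choose_spec h'
  rw [dd_inj h1.1 hu h1.2]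

open scoped Classical in
/-- the class of `S` -/
noncomputable def cls (k : ℕ) (S : Ed q → ZMod r) : Finset (Ed q → ZMod r) :=
  univ.filter fun T => (supp T).card ≤ k ∧ ∃ u : Fin q → ZMod r, 2 * (supp u).card < q ∧ T = S + dd u

theorem mem_cls {k : ℕ} {S T : Ed q → ZMod r} :
    T ∈ cls k S ↔ (supp T).card ≤ k ∧ ∃ u : Fin q → ZMod r, 2 * (supp u).card < q ∧ T = S + dd u := by
  unfold cls
  simp

theorem cls_eq {k : ℕ} (hk : 9 * k < q * q) {S T : Ed q → ZMod r} {u : Fin q → ZMod r}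
    (hS : (supp S).card ≤ k) (hT : (supp T).card ≤ k) (hu : 2 * (supp u).card < q)
    (h1 : T = S + dd u) : cls k S = cls k T := by
  have h1' : S = T + dd (-u) := by
    rw [h1, dd_neg, add_neg_cancel_right]
  have hu' : 2 * (supp (-u)).card < q := by rwa [supp_neg]
  ext R
  rw [mem_cls, mem_cls]
  constructor
  · rintro ⟨hR, W, hW, h2⟩
    obtain ⟨h3, h4⟩ := shift_two hk hT hS hR hu' hW h1' h2
    exact ⟨hR, _, h3, h4⟩
  · rintro ⟨hR, W, hW, h2⟩
    obtain ⟨h3, h4⟩ := shift_two hk hS hT hR hu hW h1 h2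
    exact ⟨hR, _, h3, h4⟩

theorem self_mem_cls {k : ℕ} (hq : 0 < q) {S : Ed q → ZMod r} (hS : (supp S).card ≤ k) :
    S ∈ cls k S := by
  rw [mem_cls]
  refine ⟨hS, 0, by rw [supp_zero]; simpa using hq, ?_⟩
  rw [dd_zero, add_zero]

open scoped Classical in
/-- a member with the smallest support -/
noncomputable def rep (C : Finset (Ed q → ZMod r)) : Ed q → ZMod r :=
  if h : C.Nonempty then Classical.choose (exists_min_image C (fun S => (supp S).card) h) else 0

theorem rep_spec {C : Finset (Ed q → ZMod r)} (h : C.Nonempty) :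
    rep C ∈ C ∧ ∀ T ∈ C, (supp (rep C)).card ≤ (supp T).card := by
  unfold rep
  rw [dif_pos h]
  exact Classical.choose_spec (exists_min_image C (fun S => (supp S).card) h)

open scoped Classical in
/-- the reduction to representatives -/
noncomputable def Rk (k : ℕ) : ((Ed q → ZMod r) → F) →ₗ[F] ((Ed q → ZMod r) → F) :=
  ∑ S ∈ (univ : Finset (Ed q → ZMod r)).filter (fun S => (supp S).card ≤ k),
    LinearMap.smulRight (cf ψ S)
      ((lam ψ h (rep (cls k S) - S) * ((r : F) ^ Fintype.card (Ed q))⁻¹) •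
        chi ψ (rep (cls k S)))

theorem Rk_chi (hψ : ψ.IsPrimitive) (h2 : (r : F) ≠ 0) {k : ℕ} {S : Ed q → ZMod r}
    (hS : (supp S).card ≤ k) :
    Rk ψ h k (chi ψ S) = lam ψ h (rep (cls k S) - S) • chi ψ (rep (cls k S)) := by
  classical
  unfold Rk
  rw [LinearMap.sum_apply]
  rw [Finset.sum_eq_single S]
  · rw [LinearMap.smulRight_apply, cf_chi ψ hψ, if_pos rfl, smul_smul]
    congr 1
    have h3 : (r : F) ^ Fintype.card (Ed q) ≠ 0 := pow_ne_zero _ h2
    field_simp
  · intro T _ hT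
    rw [LinearMap.smulRight_apply, cf_chi ψ hψ, if_neg hT, zero_smul]
  · intro h
    exact absurd (mem_filter.2 ⟨mem_univ S, hS⟩) h

theorem Rk_zero (hψ : ψ.IsPrimitive) (h2 : (r : F) ≠ 0) {k : ℕ} (hk : 9 * k < q * q)
    (hq : 0 < q) {f : (Ed q → ZMod r) → F} (hf : f ∈ Zk ψ h k) : Rk ψ h k f = 0 := by
  have h1 : Zk ψ h k ≤ LinearMap.ker (Rk ψ h k) := by
    unfold Zk
    rw [Submodule.span_le]
    rintro _ ⟨S, u, h3, h4, h5, rfl⟩
    show _ ∈ LinearMap.ker _
    rw [LinearMap.mem_ker, map_sub, map_smul, Rk_chi ψ h hψ h2 h3, Rk_chi ψ h hψ h2 h4]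
    have hc := cls_eq hk h3 h4 h5 rfl
    rw [← hc]
    have hne : (cls k S).Nonempty := ⟨S, self_mem_cls hq h3⟩
    obtain ⟨h6, _⟩ := rep_spec hne
    set R := rep (cls k S) with hR
    rw [mem_cls] at h6
    obtain ⟨h7, W, h8, h9⟩ := h6
    have h10 : R - S = dd W := by
      rw [h9, add_sub_cancel_left]
    have h5' : 2 * (supp (-u)).card < q := by rwa [supp_neg]
    have h11 : S = S + dd u + dd (-u) := by
      rw [dd_neg, add_neg_cancel_right]
    obtain ⟨h12, h13⟩ := shift_two hk h4 h3 h7 h5' h8 h11 h9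
    have h14 : R - (S + dd u) = dd (-u + W) := by
      rw [h13, add_sub_cancel_left]
    rw [h10, h14, lam_dd ψ h h8, lam_dd ψ h h12, smul_smul, ← sg_add, add_neg_cancel_left, sub_self]
  exact LinearMap.mem_ker.1 (h1 hf)

theorem zk_of_dg (hψ : ψ.IsPrimitive) (h2 : (r : F) ≠ 0) {k b : ℕ}
    (hk : 9 * k < q * q) (hb : b ≤ k) {f : (Ed q → ZMod r) → F} (hf : f ∈ Zk ψ h k)
    (hd : f ∈ Dg (Ed q) ψ b) : f ∈ Zk ψ h b := by
  have hq : 0 < q := by
    by_contra h0
    have : q = 0 := by omega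
    subst this
    omega
  have h1 : ∀ g ∈ Dg (Ed q) ψ b, g - Rk ψ h k g ∈ Zk ψ h b := by
    intro g hg
    unfold Dg at hg
    induction hg using Submodule.span_induction with
    | mem g hg =>
      obtain ⟨S, hS, rfl⟩ := hg
      have hS' : (supp S).card ≤ k := hS.trans hb
      rw [Rk_chi ψ h hψ h2 hS']
      have hne : (cls k S).Nonempty := ⟨S, self_mem_cls hq hS'⟩
      obtain ⟨h6, h7⟩ := rep_spec hne
      have h8 := h7 S (self_mem_cls hq hS')
      rw [mem_cls] at h6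
      obtain ⟨h9, W, h10, h11⟩ := h6
      have h12 : rep (cls k S) - S = dd W := by
        rw [h11, add_sub_cancel_left]
      rw [h12, lam_dd ψ h h10]
      apply Submodule.subset_span
      refine ⟨S, W, hS, ?_, h10, by rw [← h11]⟩
      rw [← h11]
      exact h8.trans hS
    | zero => simp
    | add g g' _ _ h h' =>
      rw [map_add, add_sub_add_comm]
      exact Submodule.add_mem _ h h'
    | smul c g _ h =>
      rw [map_smul, ← smul_sub]
      exact Submodule.smul_mem _ _ h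
  have h3 := h1 f hd
  rw [Rk_zero ψ h hψ h2 hk hq hf, sub_zero] at h3
  exact h3

/-- one is not in the ideal -/
theorem one_notMem_zk (hψ : ψ.IsPrimitive) (h2 : (r : F) ≠ 0) {k : ℕ}
    (hk : 9 * k < q * q) : (1 : (Ed q → ZMod r) → F) ∉ Zk ψ h k := by
  intro h'
  have hq : 0 < q := by
    by_contra h0
    have : q = 0 := by omega
    subst this
    omega
  -- the ideal of level `0` is zero
  have h1 : (1 : (Ed q → ZMod r) → F) ∈ Zk ψ h 0 :=
    zk_of_dg ψ h hψ h2 hk (Nat.zero_le _) h' (one_mem ψ 0)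
  have h3 : Zk ψ h 0 ≤ ⊥ := by
    unfold Zk
    rw [Submodule.span_le]
    rintro _ ⟨S, u, h4, h5, h6, rfl⟩
    have h7 : S = 0 := supp_eq_empty (card_eq_zero.1 (Nat.le_zero.1 h4))
    have h8 : S + dd u = 0 := supp_eq_empty (card_eq_zero.1 (Nat.le_zero.1 h5))
    have h9 : dd u = 0 := by rwa [h7, zero_add] at h8
    have h10 : u = 0 := dd_eq_zero h9 (by omega)
    rw [h8, h7, h10, sg_zero, one_smul, sub_self]
    exact Submodule.zero_mem _
  have h4 := (Submodule.mem_bot F).1 (h3 h1)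
  exact one_ne_zero h4

/-- the algebra over the big field -/
noncomputable def algF (hψ : ψ.IsPrimitive) (h2 : (r : F) ≠ 0) (K : ℕ) (hK : 9 * K < q ^ 2) :
    Pool.Agent.H67.FG.Alg F (Ed q → ZMod r) where
  Deg := Dg (Ed q) ψ
  Z := Zk ψ h K
  K := K
  one := one_mem ψ
  mono := dg_mono ψ
  mul := dg_mul ψ
  zmul := by
    intro a b f g hab hf hg hz
    have h1 : g ∈ Zk ψ h b := zk_of_dg ψ h hψ h2 (by rw [← sq]; exact hK) (by omega) hz hg
    rw [mul_comm]
    exact zk_mono ψ h (by omega) (zk_mul ψ h h1 hf)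
  ne := one_notMem_zk ψ h hψ h2 (by rw [← sq]; exact hK)

/-- the flow at `a` is wrong -/
theorem wrong_mem (hψ : ψ.IsPrimitive) (h2 : (r : F) ≠ 0) {k : ℕ} (hq : 2 < q) (hk : q - 1 ≤ k)
    (a : Fin q) : Pool.Agent.H67.FG.ind (fun y : Ed q → ZMod r => ∑ b, flow y a b ≠ h a) ∈ Zk ψ h k := by
  have h1 : (Pool.Agent.H67.FG.ind (fun y : Ed q → ZMod r => ∑ b, flow y a b ≠ h a) :
      (Ed q → ZMod r) → F) = (r : F)⁻¹ • ∑ j : ZMod r, (1 - sg ψ h (Pi.single a j) •
        chi ψ (dd (Pi.single a j))) := by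
    funext y
    rw [Pi.smul_apply, Finset.sum_apply]
    have h3 : ∀ j : ZMod r, (1 - sg ψ h (Pi.single a j) • chi ψ (dd (Pi.single a j)) :
        (Ed q → ZMod r) → F) y = 1 - ψ (j * (∑ b, flow y a b - h a)) := by
      intro j
      rw [Pi.sub_apply, Pi.one_apply, Pi.smul_apply, smul_eq_mul]
      unfold sg chi
      rw [← AddChar.map_add_eq_mul, pr_single, pr_dd]
      congr 2
      have h4 : ∑ a', (Pi.single a j : Fin q → ZMod r) a' * ∑ b, flow y a' b =
          j * ∑ b, flow y a b := pr_single a j (fun a' => ∑ b, flow y a' b)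
      rw [h4]
      ring
    rw [sum_congr rfl fun j _ => h3 j, sum_sub_distrib, ind_val ψ hψ]
    have h4 : ∑ _j : ZMod r, (1 : F) = r := by
      rw [sum_const, card_univ, ZMod.card, nsmul_eq_mul, mul_one]
    rw [h4]
    unfold Pool.Agent.H67.FG.ind
    by_cases h5 : ∑ b, flow y a b = h a
    · rw [if_pos h5, if_neg (not_not.2 h5), sub_self, smul_zero]
    · rw [if_neg h5, if_pos h5, sub_zero, smul_eq_mul, inv_mul_cancel₀ h2]
  rw [h1]
  apply Submodule.smul_mem
  apply Submodule.sum_mem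
  intro j _
  apply Submodule.subset_span
  refine ⟨0, Pi.single a j, by rw [supp_zero]; simp, ?_, ?_, ?_⟩
  · rw [zero_add]
    exact (card_dd_single a j).trans hk
  · have := card_supp_single a j
    omega
  · rw [zero_add, chi_zero]

end Tse

end Pool.Agent.H51.RG
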